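import Mathlib

set_option autoImplicit false

namespace Pool.Agent.Results.MP_039f74_co.Counter

open Finset

/-- edge boundary: pairs `(a, s)` in `A × S` with `a + s` outside `A` -/
def bdry {G : Type} [AddCommGroup G] [DecidableEq G] (S A : Finset G) : ℕ :=
  ((A ×ˢ S).filter fun p => p.1 + p.2 ∉ A).card

abbrev G0 := ZMod 2 × ZMod 2 × ZMod 4

def S0 : Finset G0 := {(0, 0, 1), (1, 0, 1), (0, 1, 1)}

lemma gen : AddSubgroup.closure (S0 : Set G0) = ⊤ := by
  rw [eq_top_iff]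
  intro x _
  have h : ∀ x : G0, ∃ a b c : Fin 4, x = (a : ℕ) • ((0, 0, 1) : G0) + (b : ℕ) • (1, 0, 1) +
      (c : ℕ) • (0, 1, 1) := by decide +kernel
  obtain ⟨a, b, c, rfl⟩ := h x
  refine add_mem (add_mem (nsmul_mem ?_ _) (nsmul_mem ?_ _)) (nsmul_mem ?_ _) <;>
    exact AddSubgroup.subset_closure (by simp [S0])

def chi (u : ZMod 4 × ZMod 4 × ZMod 4) (x : G0) : ZMod 4 :=
  2 * (u.1 * x.1.val + u.2.1 * x.2.1.val + u.2.2 * x.2.2)

lemma rank3 : AddGroup.rank G0 = 3 := by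
  refine le_antisymm (AddGroup.rank_le gen) ?_
  obtain ⟨S, h1, h2⟩ := AddGroup.rank_spec G0
  by_contra hc
  obtain ⟨a, b, hab⟩ : ∃ a b : G0, S ⊆ {a, b} := by
    have : S.card = 0 ∨ S.card = 1 ∨ S.card = 2 := by omega
    rcases this with h | h | h
    · exact ⟨0, 0, by simp [card_eq_zero.mp h]⟩
    · obtain ⟨a, rfl⟩ := card_eq_one.mp h
      exact ⟨a, a, by simp⟩
    · obtain ⟨a, b, -, rfl⟩ := card_eq_two.mp h
      exact ⟨a, b, subset_rfl⟩
  have key : ∀ a b : G0, ∃ u, chi u a = 0 ∧ chi u b = 0 ∧ ∃ x, chi u x ≠ 0 := by decide +kernel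
  have add : ∀ u x y, chi u (x + y) = chi u x + chi u y := by decide +kernel
  obtain ⟨u, ha, hb, x, hx⟩ := key a b
  have : AddSubgroup.closure (S : Set G0) ≤ (AddMonoidHom.mk' (chi u) (add u)).ker := by
    rw [AddSubgroup.closure_le]
    intro y hy
    rcases mem_insert.mp (hab hy) with rfl | h
    · exact ha
    · rw [mem_singleton.mp h]; exact hb
  exact hx (this (h2 ▸ AddSubgroup.mem_top x))

theorem result : ¬ ∀ (G : Type) [AddCommGroup G] [Fintype G] [DecidableEq G] (S A : Finset G)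
    (d : ℕ) (γ : ℝ), AddSubgroup.closure (S : Set G) = ⊤ →
    IsLeast (addOrderOf '' (S : Set G)) d → 0 < γ → γ ≤ 1 → A.Nonempty →
    (bdry S A : ℝ) ≤ (1 - γ) * AddGroup.rank G * A.card →
    (4 : ℝ) ^ ((1 - 1 / (d : ℝ)) * γ * AddGroup.rank G) ≤ A.card := by
  intro h
  have o : ∀ x ∈ S0, addOrderOf x = 4 := by
    intro x hx
    refine (addOrderOf_eq_iff (by norm_num)).mpr ?_
    revert x; decide +kernel
  have := h G0 S0 univ 4 1 gen ⟨⟨(0, 0, 1), by simp [S0], o _ (by simp [S0])⟩, by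
    rintro _ ⟨x, hx, rfl⟩; exact (o x hx).ge⟩ one_pos le_rfl univ_nonempty (by simp [bdry])
  rw [rank3] at this
  have e : (4 : ℝ) ^ (2 : ℝ) < 4 ^ ((1 - 1 / ((4 : ℕ) : ℝ)) * 1 * (3 : ℕ)) :=
    Real.rpow_lt_rpow_of_exponent_lt (by norm_num) (by norm_num)
  have c : ((univ : Finset G0).card : ℝ) = 16 := by simp
  rw [c] at this
  norm_num at e this
  linarith

end Pool.Agent.Results.MP_039f74_co.Counter
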